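import Pool.Agent.helper34.AC.Spec

/-!
# ac:DEC: removing the block of a forbidden vertex
-/

set_option autoImplicit false

namespace Pool.Agent.helper34.AC

lemma DEC_mem {V : Type} (G : SimpleGraph V) (X R S : Finset V) :
    S ∈ st G X R ↔ S ⊆ R ∧ ∀ x ∈ S, (∀ y ∈ S, ¬ G.Adj x y) ∧ ∀ y ∈ X, ¬ G.Adj x y := by
  classical
  unfold st
  rw [Finset.mem_filter, Finset.mem_powerset]

lemma DEC_N (hREC : REC_stmt) {V : Type} [DecidableEq V] (G : SimpleGraph V) (U : Finset V)
    (v : V) (hv : v ∈ U) : N G U = ∑ S ∈ st G {v} (U.erase v), N G (U.erase v \ S) := by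
  have h := hREC V G U v (fun _ => 1) hv
  simp only [Finset.sum_const, nsmul_eq_mul, mul_one] at h
  exact h

theorem DEC (hREC : REC_stmt) : DEC_stmt := by
  intro V _ G X R y x k hy hx hxy
  have hyS : ∀ S ∈ st G X R, y ∉ S := by
    intro S hS hyS
    exact (((DEC_mem G X R S).1 hS).2 y hyS).2 x hx hxy.symm
  calc Mk G X R k = ∑ S ∈ st G X R, ∑ Q ∈ st G {y} ((R \ S).erase y),
        (S.card.descFactorial k : ℝ) * N G ((R \ S).erase y \ Q) := by
        unfold Mk
        refine Finset.sum_congr rfl fun S hS => ?_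
        rw [DEC_N hREC G (R \ S) y (Finset.mem_sdiff.2 ⟨hy, hyS S hS⟩), Finset.mul_sum]
    _ = ∑ Q ∈ st G {y} (R.erase y), ∑ S ∈ st G X (R.erase y \ Q),
        (S.card.descFactorial k : ℝ) * N G ((R \ S).erase y \ Q) := by
        refine Finset.sum_comm' fun S Q => ?_
        rw [DEC_mem, DEC_mem, DEC_mem, DEC_mem]
        constructor
        · rintro ⟨⟨h1, h2⟩, h3, h4⟩
          have hyS' : y ∉ S := hyS S ((DEC_mem G X R S).2 ⟨h1, h2⟩)
          refine ⟨⟨?_, h2⟩, ?_, h4⟩
          · intro s hs
            rw [Finset.mem_sdiff, Finset.mem_erase]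
            refine ⟨⟨fun h => hyS' (h ▸ hs), h1 hs⟩, fun hq => ?_⟩
            have := h3 hq
            rw [Finset.mem_erase, Finset.mem_sdiff] at this
            exact this.2.2 hs
          · intro q hq
            have := h3 hq
            rw [Finset.mem_erase, Finset.mem_sdiff] at this
            exact Finset.mem_erase.2 ⟨this.1, this.2.1⟩
        · rintro ⟨⟨h1, h2⟩, h3, h4⟩
          refine ⟨⟨fun s hs => ?_, h2⟩, fun q hq => ?_, h4⟩
          · have := h1 hs
            rw [Finset.mem_sdiff, Finset.mem_erase] at this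
            exact this.1.2
          · have h5 := Finset.mem_erase.1 (h3 hq)
            rw [Finset.mem_erase, Finset.mem_sdiff]
            refine ⟨h5.1, h5.2, fun hqS => ?_⟩
            have := h1 hqS
            rw [Finset.mem_sdiff] at this
            exact this.2 hq
    _ = ∑ Q ∈ st G {y} (R.erase y), Mk G X (R.erase y \ Q) k := by
        refine Finset.sum_congr rfl fun Q _ => ?_
        unfold Mk
        refine Finset.sum_congr rfl fun S _ => ?_
        have : (R \ S).erase y \ Q = (R.erase y \ Q) \ S := by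
          ext a
          simp only [Finset.mem_sdiff, Finset.mem_erase]
          tauto
        rw [this]

end Pool.Agent.helper34.AC
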